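import Mathlib

/-!
# Earth mover's distance is not preserved, up to a universal factor, by a random relabeling
-/

open Filter Topology

namespace Pool.Agent.Results.MP_3e89d2_lc.NoUniformConstant

/-- The cube `{0,1}^n`. -/
abbrev Cube (n : ℕ) : Type := Fin n → Bool

/-- `P` is a probability distribution on the cube. -/
def IsDist {n : ℕ} (P : Cube n → ℝ) : Prop := (∀ x, 0 ≤ P x) ∧ ∑ x, P x = 1

/-- Relative Hamming distance on the cube. -/
noncomputable def relHam {n : ℕ} (x y : Cube n) : ℝ := (hammingDist x y : ℝ) / n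

/-- `w` is a coupling (transport plan) of `P` and `Q`. -/
def IsCoupling {n : ℕ} (P Q : Cube n → ℝ) (w : Cube n → Cube n → ℝ) : Prop :=
  (∀ x y, 0 ≤ w x y) ∧ (∀ x, ∑ y, w x y = P x) ∧ ∀ y, ∑ x, w x y = Q y

/-- Earth mover's distance of `P` and `Q` with respect to relative Hamming distance. -/
noncomputable def emd {n : ℕ} (P Q : Cube n → ℝ) : ℝ :=
  sInf {c | ∃ w, IsCoupling P Q w ∧ c = ∑ x, ∑ y, w x y * relHam x y}

/-- The distribution of `f` applied to a sample of `P`. -/
noncomputable def push {n : ℕ} (f : Cube n → Cube n) (P : Cube n → ℝ) : Cube n → ℝ :=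
  fun y => ∑ x, if f x = y then P x else 0

/-- A property of distributions (a set of distributions) which is closed under mapping. -/
def ClosedProperty {n : ℕ} (D : Set (Cube n → ℝ)) : Prop :=
  (∀ P ∈ D, IsDist P) ∧ ∀ P ∈ D, ∀ f : Cube n → Cube n, push f P ∈ D

/-- `X` is `ε`-far from `D` in earth mover's distance. -/
def Far {n : ℕ} (D : Set (Cube n → ℝ)) (ε : ℝ) (X : Cube n → ℝ) : Prop :=
  ∀ Y ∈ D, ε ≤ emd X Y

/-- Probability of an event over a uniformly random bijection of the cube. -/
noncomputable def prob {n : ℕ} (E : Equiv.Perm (Cube n) → Prop) : ℝ :=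
  (Nat.card {π : Equiv.Perm (Cube n) // E π} : ℝ) / Nat.card (Equiv.Perm (Cube n))

section Perm

variable {α : Type} [Fintype α] [DecidableEq α]

lemma card_avoid_step (A S : Finset α) (s : α) (hs : s ∉ S) :
    ((Fintype.card α : ℝ) - S.card) *
      ((Finset.univ.filter fun π : Equiv.Perm α =>
        (∀ x ∈ S, π.symm x ∉ A) ∧ π.symm s ∈ A).card : ℝ) =
    A.card * ((Finset.univ.filter fun π : Equiv.Perm α => ∀ x ∈ S, π.symm x ∉ A).card : ℝ) := by
  have h1 : ∀ u ∈ Sᶜ, (Finset.univ.filter fun π : Equiv.Perm α =>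
        (∀ x ∈ S, π.symm x ∉ A) ∧ π.symm u ∈ A).card =
      (Finset.univ.filter fun π : Equiv.Perm α =>
        (∀ x ∈ S, π.symm x ∉ A) ∧ π.symm s ∈ A).card := by
    intro u hu
    rw [Finset.mem_compl] at hu
    refine Finset.card_bij' (fun π _ => Equiv.swap s u * π) (fun π _ => Equiv.swap s u * π)
      ?_ ?_ ?_ ?_
    · intro π hπ
      simp only [Finset.mem_filter, Finset.mem_univ, true_and] at hπ ⊢
      have key : ∀ x, (Equiv.swap s u * π).symm x = π.symm (Equiv.swap s u x) := by
        intro x
        rw [Equiv.symm_apply_eq]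
        simp
      refine ⟨fun x hx => ?_, ?_⟩
      · rw [key, Equiv.swap_apply_of_ne_of_ne (by rintro rfl; exact hs hx)
          (by rintro rfl; exact hu hx)]
        exact hπ.1 x hx
      · rw [key, Equiv.swap_apply_left]; exact hπ.2
    · intro π hπ
      simp only [Finset.mem_filter, Finset.mem_univ, true_and] at hπ ⊢
      have key : ∀ x, (Equiv.swap s u * π).symm x = π.symm (Equiv.swap s u x) := by
        intro x
        rw [Equiv.symm_apply_eq]
        simp
      refine ⟨fun x hx => ?_, ?_⟩
      · rw [key, Equiv.swap_apply_of_ne_of_ne (by rintro rfl; exact hs hx)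
          (by rintro rfl; exact hu hx)]
        exact hπ.1 x hx
      · rw [key, Equiv.swap_apply_right]; exact hπ.2
    · intro π _
      rw [← mul_assoc, Equiv.swap_mul_self, one_mul]
    · intro π _
      rw [← mul_assoc, Equiv.swap_mul_self, one_mul]
  have h2 : ∑ u ∈ Sᶜ, (Finset.univ.filter fun π : Equiv.Perm α =>
        (∀ x ∈ S, π.symm x ∉ A) ∧ π.symm u ∈ A).card =
      A.card * (Finset.univ.filter fun π : Equiv.Perm α => ∀ x ∈ S, π.symm x ∉ A).card := by
    have h3 : ∀ u, (Finset.univ.filter fun π : Equiv.Perm α =>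
        (∀ x ∈ S, π.symm x ∉ A) ∧ π.symm u ∈ A).card =
        ∑ π ∈ (Finset.univ.filter fun π : Equiv.Perm α => ∀ x ∈ S, π.symm x ∉ A),
          if π.symm u ∈ A then 1 else 0 := by
      intro u
      rw [← Finset.card_filter, Finset.filter_filter]
    simp_rw [h3]
    rw [Finset.sum_comm]
    have h4 : ∀ π ∈ (Finset.univ.filter fun π : Equiv.Perm α => ∀ x ∈ S, π.symm x ∉ A),
        (∑ u ∈ Sᶜ, if π.symm u ∈ A then 1 else 0) = A.card := by
      intro π hπ
      simp only [Finset.mem_filter, Finset.mem_univ, true_and] at hπ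
      rw [← Finset.card_filter]
      have : Finset.filter (fun u => π.symm u ∈ A) Sᶜ = A.map π.toEmbedding := by
        ext u
        simp only [Finset.mem_filter, Finset.mem_compl, Finset.mem_map_equiv]
        constructor
        · exact fun h => h.2
        · exact fun h => ⟨fun hu => hπ u hu h, h⟩
      rw [this, Finset.card_map]
    rw [Finset.sum_congr rfl h4, Finset.sum_const, smul_eq_mul, mul_comm]
  rw [Finset.sum_congr rfl h1, Finset.sum_const, smul_eq_mul, Finset.card_compl] at h2
  have h5 : S.card ≤ Fintype.card α := Finset.card_le_univ S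
  have h6 := congrArg (fun n : ℕ => (n : ℝ)) h2
  push_cast [Nat.cast_sub h5] at h6
  exact h6

/-- The proportion of bijections `π` whose image of `A` avoids `S` is at most
`(1 - |A|/N)^|S|`. -/
lemma card_avoid_le (A S : Finset α) (hα : 0 < Fintype.card α) :
    ((Finset.univ.filter fun π : Equiv.Perm α => ∀ x ∈ S, π.symm x ∉ A).card : ℝ) ≤
      (1 - (A.card : ℝ) / Fintype.card α) ^ S.card * Fintype.card (Equiv.Perm α) := by
  have hN : (0 : ℝ) < Fintype.card α := by exact_mod_cast hα
  have hA : (A.card : ℝ) / Fintype.card α ≤ 1 := by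
    rw [div_le_one hN]
    exact_mod_cast Finset.card_le_univ A
  induction S using Finset.induction_on with
  | empty => simp
  | insert s S hs ih =>
    have hstep := card_avoid_step A S s hs
    set P := ((Finset.univ.filter fun π : Equiv.Perm α => ∀ x ∈ S, π.symm x ∉ A).card : ℝ)
      with hP
    set Q := ((Finset.univ.filter fun π : Equiv.Perm α =>
        (∀ x ∈ S, π.symm x ∉ A) ∧ π.symm s ∈ A).card : ℝ) with hQ
    have hsplit : ((Finset.univ.filter fun π : Equiv.Perm α =>
        ∀ x ∈ insert s S, π.symm x ∉ A).card : ℝ) + Q = P := by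
      rw [hQ, hP, ← Nat.cast_add]
      congr 1
      rw [← Finset.card_union_of_disjoint]
      · congr 1
        ext π
        simp only [Finset.mem_union, Finset.mem_filter, Finset.mem_univ, true_and,
          Finset.mem_insert, forall_eq_or_imp]
        tauto
      · rw [Finset.disjoint_filter]
        intro π _ h1 h2
        exact h1 s (Finset.mem_insert_self s S) h2.2
    have hSN : (S.card : ℝ) ≤ Fintype.card α := by exact_mod_cast Finset.card_le_univ S
    have hQ0 : 0 ≤ Q := by positivity
    have hQP : (A.card : ℝ) / Fintype.card α * P ≤ Q := by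
      rw [div_mul_eq_mul_div, div_le_iff₀ hN, ← hstep]
      nlinarith [Nat.cast_nonneg (α := ℝ) S.card]
    have h1 : ((Finset.univ.filter fun π : Equiv.Perm α =>
        ∀ x ∈ insert s S, π.symm x ∉ A).card : ℝ) ≤ (1 - (A.card : ℝ) / Fintype.card α) * P := by
      linarith
    rw [Finset.card_insert_of_notMem hs, pow_succ]
    calc _ ≤ (1 - (A.card : ℝ) / Fintype.card α) * P := h1
      _ ≤ (1 - (A.card : ℝ) / Fintype.card α) *
          ((1 - (A.card : ℝ) / Fintype.card α) ^ S.card * Fintype.card (Equiv.Perm α)) := by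
          apply mul_le_mul_of_nonneg_left ih (by linarith)
      _ = _ := by ring

end Perm

section Cube

/-- Flip the `i`-th bit of `z`. -/
def flipAt {n : ℕ} (z : Cube n) (i : Fin n) : Cube n := Function.update z i (!(z i))

lemma flipAt_same {n : ℕ} (z : Cube n) (i : Fin n) : flipAt z i i = !(z i) := by
  simp [flipAt]

lemma flipAt_ne {n : ℕ} (z : Cube n) {i j : Fin n} (h : j ≠ i) : flipAt z i j = z j := by
  simp [flipAt, h]

lemma flipAt_flipAt {n : ℕ} (z : Cube n) (i : Fin n) : flipAt (flipAt z i) i = z := by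
  funext j
  by_cases h : j = i
  · subst h; simp [flipAt_same]
  · rw [flipAt_ne _ h, flipAt_ne _ h]

lemma flipAt_injective {n : ℕ} (z : Cube n) : Function.Injective (flipAt z) := by
  intro i j h
  by_contra hij
  have h1 := congrFun h i
  rw [flipAt_same, flipAt_ne _ hij] at h1
  cases hz : z i <;> simp [hz] at h1

lemma hammingDist_flipAt {n : ℕ} (z : Cube n) (i : Fin n) : hammingDist z (flipAt z i) = 1 := by
  rw [hammingDist, Finset.card_eq_one]
  refine ⟨i, ?_⟩
  ext j
  simp only [Finset.mem_filter, Finset.mem_univ, true_and, Finset.mem_singleton]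
  by_cases h : j = i
  · subst h; rw [flipAt_same]; simp
  · rw [flipAt_ne _ h]; simp [h]

lemma hammingDist_flipAt_of_ne {n : ℕ} (b y : Cube n) (i : Fin n) (h : b i ≠ y i) :
    hammingDist b (flipAt y i) + 1 = hammingDist b y := by
  rw [hammingDist, hammingDist]
  have : Finset.univ.filter (fun j => b j ≠ flipAt y i j) =
      (Finset.univ.filter fun j => b j ≠ y j).erase i := by
    ext j
    simp only [Finset.mem_filter, Finset.mem_univ, true_and, Finset.mem_erase]
    by_cases hj : j = i
    · subst hj
      rw [flipAt_same]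
      constructor
      · intro h2
        exfalso
        cases hb : b j <;> cases hy : y j <;> simp_all
      · intro h2; exact absurd rfl h2.1
    · rw [flipAt_ne _ hj]; simp [hj]
  rw [this, Finset.card_erase_of_mem (by simpa using h)]
  have : 0 < (Finset.univ.filter fun j => b j ≠ y j).card :=
    Finset.card_pos.mpr ⟨i, by simpa using h⟩
  omega

lemma ball_card {n : ℕ} (b : Cube n) (k : ℕ) :
    (Finset.univ.filter fun y : Cube n => hammingDist b y ≤ k).card ≤ (n + 1) ^ k := by
  induction k with
  | zero =>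
    have : (Finset.univ.filter fun y : Cube n => hammingDist b y ≤ 0) ⊆ {b} := by
      intro y hy
      simp only [Finset.mem_filter, Finset.mem_univ, true_and, Nat.le_zero,
        hammingDist_eq_zero] at hy
      simp [hy]
    exact (Finset.card_le_card this).trans (by simp)
  | succ k ih =>
    have hsub : (Finset.univ.filter fun y : Cube n => hammingDist b y ≤ k + 1) ⊆
        ((Finset.univ : Finset (Option (Fin n))) ×ˢ
          (Finset.univ.filter fun y : Cube n => hammingDist b y ≤ k)).image
          (fun p => match p.1 with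
            | none => p.2
            | some i => flipAt p.2 i) := by
      intro y hy
      simp only [Finset.mem_filter, Finset.mem_univ, true_and] at hy
      rw [Finset.mem_image]
      by_cases hk : hammingDist b y ≤ k
      · exact ⟨(none, y), by simp [hk], rfl⟩
      · have hpos : 0 < hammingDist b y := by omega
        have hne : b ≠ y := hammingDist_pos.mp hpos
        obtain ⟨i, hi⟩ := Function.ne_iff.mp hne
        have h1 := hammingDist_flipAt_of_ne b y i hi
        refine ⟨(some i, flipAt y i), ?_, flipAt_flipAt y i⟩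
        simp only [Finset.mem_product, Finset.mem_univ, Finset.mem_filter, true_and]
        omega
    refine (Finset.card_le_card hsub).trans (Finset.card_image_le.trans ?_)
    rw [Finset.card_product, Finset.card_univ, Fintype.card_option, Fintype.card_fin, pow_succ,
      mul_comm]
    exact Nat.mul_le_mul_right _ ih

lemma relHam_nonneg {n : ℕ} (x y : Cube n) : 0 ≤ relHam x y := by
  unfold relHam; positivity

lemma relHam_le_one {n : ℕ} (x y : Cube n) : relHam x y ≤ 1 := by
  unfold relHam
  apply div_le_one_of_le₀ _ (by positivity)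
  have := hammingDist_le_card_fintype (x := x) (y := y)
  rw [Fintype.card_fin] at this
  exact_mod_cast this

lemma isDist_push {n : ℕ} (f : Cube n → Cube n) {P : Cube n → ℝ} (hP : IsDist P) :
    IsDist (push f P) := by
  refine ⟨fun y => Finset.sum_nonneg fun x _ => ?_, ?_⟩
  · split_ifs
    · exact hP.1 x
    · exact le_rfl
  · unfold push
    rw [Finset.sum_comm]
    simp [hP.2]

lemma push_perm {n : ℕ} (π : Equiv.Perm (Cube n)) (P : Cube n → ℝ) (y : Cube n) :
    push π P y = P (π.symm y) := by
  unfold push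
  have : ∀ x, (if π x = y then P x else 0) = if x = π.symm y then P (π.symm y) else 0 := by
    intro x
    by_cases h : π x = y
    · have h2 : x = π.symm y := by rw [← h]; simp
      rw [if_pos h, if_pos h2, ← h2]
    · have h2 : ¬ x = π.symm y := by
        intro h3; apply h; rw [h3]; simp
      rw [if_neg h, if_neg h2]
  simp [this]

lemma cost_nonneg {n : ℕ} {P Q : Cube n → ℝ} {w : Cube n → Cube n → ℝ} (hw : IsCoupling P Q w) :
    0 ≤ ∑ x, ∑ y, w x y * relHam x y :=
  Finset.sum_nonneg fun x _ => Finset.sum_nonneg fun y _ =>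
    mul_nonneg (hw.1 x y) (relHam_nonneg x y)

lemma emd_le {n : ℕ} {P Q : Cube n → ℝ} {w : Cube n → Cube n → ℝ} (hw : IsCoupling P Q w) :
    emd P Q ≤ ∑ x, ∑ y, w x y * relHam x y := by
  apply csInf_le
  · refine ⟨0, ?_⟩
    rintro c ⟨w', hw', rfl⟩
    exact cost_nonneg hw'
  · exact ⟨w, hw, rfl⟩

lemma le_emd {n : ℕ} {P Q : Cube n → ℝ} (hP : IsDist P) (hQ : IsDist Q) (ε : ℝ)
    (h : ∀ w, IsCoupling P Q w → ε ≤ ∑ x, ∑ y, w x y * relHam x y) : ε ≤ emd P Q := by
  apply le_csInf
  · refine ⟨_, fun x y => P x * Q y, ⟨fun x y => mul_nonneg (hP.1 x) (hQ.1 y), ?_, ?_⟩, rfl⟩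
    · intro x
      rw [← Finset.mul_sum, hQ.2, mul_one]
    · intro y
      rw [← Finset.sum_mul, hP.2, one_mul]
  · rintro c ⟨w, hw, rfl⟩
    exact h w hw

/-- The property of having support size at most `m`. -/
def smallSupport (n m : ℕ) : Set (Cube n → ℝ) :=
  {P | IsDist P ∧ (Finset.univ.filter fun x => P x ≠ 0).card ≤ m}

lemma smallSupport_closed (n m : ℕ) : ClosedProperty (smallSupport n m) := by
  refine ⟨fun P hP => hP.1, fun P hP f => ⟨isDist_push f hP.1, ?_⟩⟩
  refine le_trans (Finset.card_le_card ?_)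
    ((Finset.card_image_le (s := Finset.univ.filter fun x => P x ≠ 0) (f := f)).trans hP.2)
  intro y hy
  simp only [Finset.mem_filter, Finset.mem_univ, true_and, Finset.mem_image] at hy ⊢
  by_contra hcon
  apply hy
  unfold push
  refine Finset.sum_eq_zero fun x _ => ?_
  by_cases hx : f x = y
  · rw [if_pos hx]
    by_contra hPx
    exact hcon ⟨x, hPx, hx⟩
  · rw [if_neg hx]

/-- The distribution with mass `1 - e` spread uniformly over `A` and mass `e` spread uniformly
over `B` (both of size `m`). -/
noncomputable def mix {n : ℕ} (A B : Finset (Cube n)) (m : ℕ) (e : ℝ) (x : Cube n) : ℝ :=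
  (if x ∈ A then (1 - e) / m else 0) + (if x ∈ B then e / m else 0)

lemma isDist_mix {n : ℕ} (A B : Finset (Cube n)) (m : ℕ) (e : ℝ) (hm : 0 < m) (hA : A.card = m)
    (hB : B.card = m) (he0 : 0 ≤ e) (he1 : e ≤ 1) : IsDist (mix A B m e) := by
  have hm' : (0 : ℝ) < m := by exact_mod_cast hm
  refine ⟨fun x => ?_, ?_⟩
  · unfold mix
    apply add_nonneg
    · split_ifs
      · apply div_nonneg (by linarith) hm'.le
      · exact le_rfl
    · split_ifs
      · apply div_nonneg he0 hm'.le
      · exact le_rfl
  · unfold mix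
    rw [Finset.sum_add_distrib, ← Finset.sum_filter, ← Finset.sum_filter]
    simp only [Finset.filter_univ_mem, Finset.sum_const, hA, hB, nsmul_eq_mul]
    field_simp
    ring

/-- Lower bound: the mixture is far from having small support. -/
lemma far_mix {n r m : ℕ} (hn : 0 < n) (hr : 1 ≤ r) (A B : Finset (Cube n)) (hm : 0 < m)
    (hA : A.card = m) (hB : B.card = m)
    (hAB : ∀ a ∈ A, ∀ b ∈ B, r ≤ hammingDist b a) (e : ℝ) (he0 : 0 < e) (he1 : e ≤ 1 / 2)
    (he2 : e * r * (n + 1 : ℝ) ^ (r - 1) ≤ 1 / 2) :
    Far (smallSupport n m) (e * r / n) (mix A B m e) := by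
  classical
  have hm' : (0 : ℝ) < m := by exact_mod_cast hm
  have hn' : (0 : ℝ) < n := by exact_mod_cast hn
  have hdisj : ∀ x ∈ A, x ∉ B := by
    intro x hx hxB
    have := hAB x hx x hxB
    rw [hammingDist_self] at this
    omega
  intro Y hY
  refine le_emd (isDist_mix A B m e hm hA hB he0.le (by linarith)) hY.1 _ fun w hw => ?_
  set T := Finset.univ.filter fun y => Y y ≠ 0 with hT
  have hTcard : T.card ≤ m := hY.2
  have hw0 : ∀ x, ∀ y ∉ T, w x y = 0 := by
    intro x y hy
    have hYy : Y y = 0 := by
      by_contra h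
      exact hy (by simp [hT, h])
    have h1 := hw.2.2 y
    rw [hYy, Finset.sum_eq_zero_iff_of_nonneg (fun x _ => hw.1 x y)] at h1
    exact h1 x (Finset.mem_univ x)
  -- far part of `B`
  set F := B.filter fun b => ∀ y ∈ T, r ≤ hammingDist b y with hF
  have hrow1 : ∀ x ∈ A \ T, (1 - e) / m / n ≤ ∑ y, w x y * relHam x y := by
    intro x hx
    rw [Finset.mem_sdiff] at hx
    have h1 : mix A B m e x = (1 - e) / m := by simp [mix, hx.1, hdisj x hx.1]
    rw [← h1, ← hw.2.1 x, Finset.sum_div]
    refine Finset.sum_le_sum fun y _ => ?_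
    by_cases hy : y ∈ T
    · rw [div_eq_mul_one_div]
      refine mul_le_mul_of_nonneg_left ?_ (hw.1 x y)
      unfold relHam
      gcongr
      have : x ≠ y := by rintro rfl; exact hx.2 hy
      exact_mod_cast hammingDist_pos.mpr this
    · rw [hw0 x y hy]; simp
  have hrow2 : ∀ x ∈ F, e / m * (r / n) ≤ ∑ y, w x y * relHam x y := by
    intro x hx
    rw [hF, Finset.mem_filter] at hx
    have h1 : mix A B m e x = e / m := by
      have : x ∉ A := fun h => hdisj x h hx.1
      simp [mix, hx.1, this]
    rw [← h1, ← hw.2.1 x, Finset.sum_mul]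
    refine Finset.sum_le_sum fun y _ => ?_
    by_cases hy : y ∈ T
    · refine mul_le_mul_of_nonneg_left ?_ (hw.1 x y)
      unfold relHam
      gcongr
      exact_mod_cast hx.2 y hy
    · rw [hw0 x y hy]; simp
  have hdisj2 : Disjoint (A \ T) F := by
    rw [Finset.disjoint_left]
    intro x hx hxF
    exact hdisj x (Finset.mem_sdiff.mp hx).1 (Finset.mem_filter.mp hxF).1
  have hcost : ((A \ T).card : ℝ) * ((1 - e) / m / n) + (F.card : ℝ) * (e / m * (r / n)) ≤
      ∑ x, ∑ y, w x y * relHam x y := by
    calc _ = ∑ x ∈ A \ T, ((1 - e) / m / n) + ∑ x ∈ F, (e / m * (r / n)) := by simp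
      _ ≤ ∑ x ∈ A \ T, ∑ y, w x y * relHam x y + ∑ x ∈ F, ∑ y, w x y * relHam x y :=
          add_le_add (Finset.sum_le_sum hrow1) (Finset.sum_le_sum hrow2)
      _ = ∑ x ∈ (A \ T) ∪ F, ∑ y, w x y * relHam x y := (Finset.sum_union hdisj2).symm
      _ ≤ _ := Finset.sum_le_sum_of_subset_of_nonneg (Finset.subset_univ _) fun x _ _ =>
          Finset.sum_nonneg fun y _ => mul_nonneg (hw.1 x y) (relHam_nonneg x y)
  -- near part of `B`
  have hTA : (T \ A).card ≤ (A \ T).card := by
    have h1 := Finset.card_sdiff_add_card_inter T A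
    have h2 := Finset.card_sdiff_add_card_inter A T
    rw [Finset.inter_comm] at h2
    omega
  have hnear : (B \ F).card ≤ (T \ A).card * (n + 1) ^ (r - 1) := by
    have hsub : B \ F ⊆ (T \ A).biUnion fun y =>
        Finset.univ.filter fun b : Cube n => hammingDist y b ≤ r - 1 := by
      intro b hb
      simp only [hF, Finset.mem_sdiff, Finset.mem_filter, not_and, not_forall, not_le] at hb
      obtain ⟨hbB, hb2⟩ := hb
      obtain ⟨y, hyT, hy⟩ := hb2 hbB
      rw [Finset.mem_biUnion]
      refine ⟨y, ?_, ?_⟩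
      · rw [Finset.mem_sdiff]
        refine ⟨hyT, fun hyA => ?_⟩
        have := hAB y hyA b hbB
        omega
      · simp only [Finset.mem_filter, Finset.mem_univ, true_and]
        rw [hammingDist_comm]
        omega
    refine (Finset.card_le_card hsub).trans (Finset.card_biUnion_le.trans ?_)
    calc _ ≤ ∑ y ∈ T \ A, (n + 1) ^ (r - 1) := Finset.sum_le_sum fun y _ => ball_card y (r - 1)
      _ = _ := by simp
  have hFB : F ⊆ B := Finset.filter_subset _ _
  have hFcard : (m : ℝ) ≤ F.card + (A \ T).card * (n + 1 : ℝ) ^ (r - 1) := by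
    have h1 : (B \ F).card + F.card = m := by
      rw [Finset.card_sdiff_add_card_eq_card hFB, hB]
    have h2 : m ≤ F.card + (A \ T).card * (n + 1) ^ (r - 1) := by
      have := Nat.mul_le_mul_right ((n + 1) ^ (r - 1)) hTA
      omega
    exact_mod_cast h2
  refine le_trans ?_ hcost
  set t : ℝ := ((A \ T).card : ℝ) with ht
  set f : ℝ := (F.card : ℝ) with hf
  set V : ℝ := (n + 1 : ℝ) ^ (r - 1) with hV
  have ht0 : 0 ≤ t := by positivity
  have hr' : (0 : ℝ) ≤ r := by positivity
  have key : e * r * m ≤ t * (1 - e) + f * (e * r) := by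
    have h1 : t * (e * r * V) ≤ t * (1 - e) := by
      apply mul_le_mul_of_nonneg_left _ ht0
      linarith
    have h2 : e * r * m ≤ e * r * (f + t * V) := by
      apply mul_le_mul_of_nonneg_left hFcard
      positivity
    nlinarith
  have e1 : t * ((1 - e) / m / n) + f * (e / m * (r / n)) =
      (t * (1 - e) + f * (e * r)) / (m * n) := by
    field_simp
  rw [e1, div_le_div_iff₀ hn' (by positivity)]
  nlinarith

/-- The points of the cube none of whose neighbours lie in `π(A)`. -/
def bad {n : ℕ} (A : Finset (Cube n)) (π : Equiv.Perm (Cube n)) : Finset (Cube n) :=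
  Finset.univ.filter fun z => ∀ s ∈ Finset.univ.image (flipAt z), π.symm s ∉ A

/-- Upper bound: if few points have no neighbour in `π(A)`, then the relabeled mixture is close to
having small support. -/
lemma emd_mix_le {n m : ℕ} (hn : 0 < n) (A B : Finset (Cube n)) (hm : 0 < m)
    (hA : A.card = m) (hB : B.card = m) (_hdisj : ∀ x ∈ A, x ∉ B)
    (e : ℝ) (he0 : 0 < e) (he1 : e ≤ 1 / 2) (π : Equiv.Perm (Cube n)) :
    ∃ Y ∈ smallSupport n m,
      emd (push π (mix A B m e)) Y ≤ e / n + e / m * (bad A π).card := by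
  classical
  have hm' : (0 : ℝ) < m := by exact_mod_cast hm
  have hn' : (0 : ℝ) < n := by exact_mod_cast hn
  have hX := isDist_mix A B m e hm hA hB he0.le (by linarith)
  obtain ⟨a₀, ha₀⟩ : A.Nonempty := Finset.card_pos.mp (by omega)
  have hg : ∀ z : Cube n, ∃ y : Cube n, π.symm y ∈ A ∧ (π.symm z ∈ A → y = z) ∧
      ((∃ i, π.symm (flipAt z i) ∈ A) → hammingDist z y ≤ 1) := by
    intro z
    by_cases h1 : π.symm z ∈ A
    · exact ⟨z, h1, fun _ => rfl, fun _ => by simp⟩
    · by_cases h2 : ∃ i, π.symm (flipAt z i) ∈ A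
      · obtain ⟨i, hi⟩ := h2
        exact ⟨flipAt z i, hi, fun h => absurd h h1, fun _ => (hammingDist_flipAt z i).le⟩
      · exact ⟨π a₀, by simpa using ha₀, fun h => absurd h h1, fun h => absurd h h2⟩
  choose g hg1 hg2 hg3 using hg
  have hP := isDist_push π hX
  refine ⟨push g (push π (mix A B m e)), ⟨isDist_push g hP, ?_⟩, ?_⟩
  · have hsub : (Finset.univ.filter fun x => push g (push π (mix A B m e)) x ≠ 0) ⊆
        A.map π.toEmbedding := by
      intro y hy
      rw [Finset.mem_filter] at hy
      rw [Finset.mem_map_equiv]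
      by_contra hcon
      apply hy.2
      refine Finset.sum_eq_zero fun x _ => ?_
      rw [if_neg]
      rintro rfl
      exact hcon (hg1 x)
    exact (Finset.card_le_card hsub).trans (by rw [Finset.card_map, hA])
  · have hw : IsCoupling (push π (mix A B m e)) (push g (push π (mix A B m e)))
        (fun x y => if g x = y then push π (mix A B m e) x else 0) := by
      refine ⟨fun x y => ?_, fun x => ?_, fun y => rfl⟩
      · dsimp only
        split_ifs
        · exact hP.1 x
        · exact le_rfl
      · simp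
    refine (emd_le hw).trans ?_
    have h1 : ∀ x : Cube n, (∑ y, (if g x = y then push π (mix A B m e) x else 0) * relHam x y) =
        push π (mix A B m e) x * relHam x (g x) := by
      intro x
      simp [ite_mul]
    rw [Finset.sum_congr rfl fun x _ => h1 x]
    have h2 : ∀ x : Cube n, push π (mix A B m e) x * relHam x (g x) ≤
        (if x ∈ B.map π.toEmbedding then e / m * (1 / n) else 0) +
        (if x ∈ bad A π then e / m else 0) := by
      intro x
      rw [push_perm]
      by_cases hxA : π.symm x ∈ A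
      · rw [hg2 x hxA]
        have : relHam x x = 0 := by simp [relHam]
        rw [this, mul_zero]
        positivity
      · by_cases hxB : π.symm x ∈ B
        · have hval : mix A B m e (π.symm x) = e / m := by simp [mix, hxA, hxB]
          rw [hval, if_pos (by rw [Finset.mem_map_equiv]; exact hxB)]
          by_cases hbad : x ∈ bad A π
          · rw [if_pos hbad]
            have h3 : e / m * relHam x (g x) ≤ e / m * 1 :=
              mul_le_mul_of_nonneg_left (relHam_le_one _ _) (by positivity)
            have h4 : 0 ≤ e / m * (1 / n : ℝ) := by positivity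
            linarith
          · rw [if_neg hbad, add_zero]
            apply mul_le_mul_of_nonneg_left _ (by positivity)
            unfold relHam
            gcongr
            have : ∃ i, π.symm (flipAt x i) ∈ A := by
              by_contra hcon
              push Not at hcon
              apply hbad
              simp only [bad, Finset.mem_filter, Finset.mem_univ, true_and, Finset.mem_image]
              rintro s ⟨i, rfl⟩
              exact hcon i
            exact_mod_cast hg3 x this
        · have hval : mix A B m e (π.symm x) = 0 := by simp [mix, hxA, hxB]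
          rw [hval, zero_mul]
          positivity
    refine (Finset.sum_le_sum fun x _ => h2 x).trans ?_
    rw [Finset.sum_add_distrib, ← Finset.sum_filter, ← Finset.sum_filter]
    simp only [Finset.filter_univ_mem, Finset.sum_const, Finset.card_map, hB, nsmul_eq_mul]
    apply le_of_eq
    field_simp

/-- The expected number of points none of whose neighbours lie in `π(A)`. -/
lemma sum_bad_le {n : ℕ} (A : Finset (Cube n)) :
    ∑ π : Equiv.Perm (Cube n), ((bad A π).card : ℝ) ≤
      (2 : ℝ) ^ n * ((1 - (A.card : ℝ) / 2 ^ n) ^ n * Fintype.card (Equiv.Perm (Cube n))) := by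
  classical
  have hcard : (Fintype.card (Cube n) : ℝ) = 2 ^ n := by simp
  have h1 : ∑ π : Equiv.Perm (Cube n), ((bad A π).card : ℝ) =
      ∑ z : Cube n, ((Finset.univ.filter fun π : Equiv.Perm (Cube n) =>
        ∀ s ∈ Finset.univ.image (flipAt z), π.symm s ∉ A).card : ℝ) := by
    have h2 : ∀ π : Equiv.Perm (Cube n), ((bad A π).card : ℝ) =
        ∑ z : Cube n, if (∀ s ∈ Finset.univ.image (flipAt z), π.symm s ∉ A) then (1 : ℝ) else 0 := by
      intro π
      rw [bad, Finset.sum_boole]
    have h3 : ∀ z : Cube n, ((Finset.univ.filter fun π : Equiv.Perm (Cube n) =>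
        ∀ s ∈ Finset.univ.image (flipAt z), π.symm s ∉ A).card : ℝ) =
        ∑ π : Equiv.Perm (Cube n),
          if (∀ s ∈ Finset.univ.image (flipAt z), π.symm s ∉ A) then (1 : ℝ) else 0 := by
      intro z
      rw [Finset.sum_boole]
    simp_rw [h2, h3]
    rw [Finset.sum_comm]
  rw [h1]
  calc _ ≤ ∑ z : Cube n, ((1 - (A.card : ℝ) / 2 ^ n) ^ n *
        Fintype.card (Equiv.Perm (Cube n))) := by
        refine Finset.sum_le_sum fun z _ => ?_
        have h4 := card_avoid_le A (Finset.univ.image (flipAt z)) Fintype.card_pos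
        rw [Finset.card_image_of_injective _ (flipAt_injective z), Finset.card_univ,
          Fintype.card_fin, hcard] at h4
        exact h4
    _ = _ := by
        rw [Finset.sum_const, nsmul_eq_mul, Finset.card_univ, hcard]

/-- The probability that more than `m / n` points have no neighbour in `π(A)`. -/
lemma prob_bad_le {n m : ℕ} (hn : 0 < n) (A : Finset (Cube n)) (hm : 0 < m) (hA : A.card = m) :
    prob (fun π : Equiv.Perm (Cube n) => (m : ℝ) / n < (bad A π).card) ≤
      (2 : ℝ) ^ n * n / m * (1 - (m : ℝ) / 2 ^ n) ^ n := by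
  classical
  have hm' : (0 : ℝ) < m := by exact_mod_cast hm
  have hn' : (0 : ℝ) < n := by exact_mod_cast hn
  have hfac : (0 : ℝ) < Fintype.card (Equiv.Perm (Cube n)) := by
    exact_mod_cast Fintype.card_pos
  unfold prob
  rw [Nat.card_eq_fintype_card, Nat.card_eq_fintype_card, Fintype.card_subtype]
  rw [div_le_iff₀ hfac]
  have h1 := sum_bad_le A
  have h2 : ((Finset.univ.filter fun π : Equiv.Perm (Cube n) =>
      (m : ℝ) / n < (bad A π).card).card : ℝ) * (m / n) ≤
      ∑ π : Equiv.Perm (Cube n), ((bad A π).card : ℝ) := by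
    rw [← nsmul_eq_mul, ← Finset.sum_const]
    calc _ ≤ ∑ π ∈ (Finset.univ.filter fun π : Equiv.Perm (Cube n) =>
          (m : ℝ) / n < (bad A π).card), ((bad A π).card : ℝ) := by
          refine Finset.sum_le_sum fun π hπ => ?_
          rw [Finset.mem_filter] at hπ
          exact hπ.2.le
      _ ≤ _ := Finset.sum_le_sum_of_subset_of_nonneg (Finset.filter_subset _ _)
          fun π _ _ => by positivity
  rw [hA] at h1
  have h3 := h2.trans h1
  rw [← le_div_iff₀ (by positivity)] at h3
  refine h3.trans (le_of_eq ?_)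
  field_simp

end Cube

section Sets

/-- The subcube of points whose first `r` bits all equal `v`. -/
def sub (n r : ℕ) (v : Bool) : Finset (Cube n) :=
  Fintype.piFinset fun i : Fin n => if (i : ℕ) < r then {v} else Finset.univ

lemma mem_sub {n r : ℕ} {v : Bool} {x : Cube n} :
    x ∈ sub n r v ↔ ∀ i : Fin n, (i : ℕ) < r → x i = v := by
  unfold sub
  rw [Fintype.mem_piFinset]
  refine forall_congr' fun i => ?_
  split_ifs with h
  · simp [h]
  · simp [h]

lemma card_fin_lt {n r : ℕ} (hr : r ≤ n) :
    (Finset.univ.filter fun i : Fin n => (i : ℕ) < r).card = r := by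
  have h : (Finset.univ.filter fun i : Fin n => (i : ℕ) < r).card = min n r :=
    Fin.card_filter_val_lt
  omega

lemma card_sub {n r : ℕ} (hr : r ≤ n) (v : Bool) : (sub n r v).card = 2 ^ (n - r) := by
  unfold sub
  rw [Fintype.card_piFinset]
  have h1 : ∀ i : Fin n, (if (i : ℕ) < r then ({v} : Finset Bool) else Finset.univ).card =
      if (i : ℕ) < r then 1 else 2 := by
    intro i
    split_ifs <;> simp
  simp_rw [h1]
  rw [Finset.prod_ite, Finset.prod_const_one, one_mul, Finset.prod_const]
  congr 1
  have h2 := Finset.card_filter_add_card_filter_not (s := (Finset.univ : Finset (Fin n)))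
    (fun i : Fin n => (i : ℕ) < r)
  rw [card_fin_lt hr, Finset.card_univ, Fintype.card_fin] at h2
  omega

lemma dist_sub {n r : ℕ} (hr : r ≤ n) (a : Cube n) (ha : a ∈ sub n r false) (b : Cube n)
    (hb : b ∈ sub n r true) : r ≤ hammingDist b a := by
  rw [mem_sub] at ha hb
  rw [hammingDist]
  calc r = (Finset.univ.filter fun i : Fin n => (i : ℕ) < r).card := (card_fin_lt hr).symm
    _ ≤ _ := Finset.card_le_card fun i hi => by
      simp only [Finset.mem_filter, Finset.mem_univ, true_and] at hi ⊢
      rw [ha i hi, hb i hi]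
      simp

end Sets

/-- For every `c > 0` and `η > 0` there is `K` such that for all large `n` there are a property
`D` closed under mapping, a distribution `X` and `ε ≥ n^(-K)` such that `X` is `ε`-far from `D`
but the probability over a random bijection `π` that `π(X)` is `cε`-far from `D` is at most
`η`. -/
theorem result : ∀ c : ℝ, 0 < c → ∀ η : ℝ, 0 < η → ∃ K N : ℕ, ∀ n : ℕ, N ≤ n →
    ∃ (D : Set (Cube n → ℝ)) (X : Cube n → ℝ) (ε : ℝ),
      ClosedProperty D ∧ IsDist X ∧ 0 < ε ∧ 1 / (n : ℝ) ^ K ≤ ε ∧ Far D ε X ∧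
      prob (fun π : Equiv.Perm (Cube n) => Far D (c * ε) (push π X)) ≤ η := by
  intro c hc η hη
  obtain ⟨r, hr⟩ := exists_nat_gt (2 / c)
  have hr0 : (0 : ℝ) < r := lt_trans (by positivity) hr
  have hr1 : 1 ≤ r := by exact_mod_cast hr0
  -- the probability bound tends to zero
  have hq : |1 - (1 : ℝ) / 2 ^ r| < 1 := by
    have h1 : (1 : ℝ) ≤ 2 ^ r := one_le_pow₀ (by norm_num)
    have h2 : (0 : ℝ) < 1 / 2 ^ r := by positivity
    have h3 : (1 : ℝ) / 2 ^ r ≤ 1 := by rw [div_le_one (by positivity)]; exact h1
    rw [abs_lt]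
    constructor <;> linarith
  have hlim : Tendsto (fun n : ℕ => (2 : ℝ) ^ r * (n * (1 - (1 : ℝ) / 2 ^ r) ^ n)) atTop (𝓝 0) := by
    have h1 := tendsto_self_mul_const_pow_of_abs_lt_one hq
    simpa using h1.const_mul ((2 : ℝ) ^ r)
  obtain ⟨N₁, hN₁⟩ := Filter.eventually_atTop.mp (hlim.eventually (ge_mem_nhds hη))
  refine ⟨r + 1, max (max N₁ r) (2 ^ r), fun n hn => ?_⟩
  have hnN₁ : N₁ ≤ n := le_trans (le_trans (le_max_left _ _) (le_max_left _ _)) hn
  have hnr : r ≤ n := le_trans (le_trans (le_max_right _ _) (le_max_left _ _)) hn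
  have hn2 : 2 ^ r ≤ n := le_trans (le_max_right _ _) hn
  have hn0 : 0 < n := by omega
  have hn' : (0 : ℝ) < n := by exact_mod_cast hn0
  have hn1 : (1 : ℝ) ≤ n := by exact_mod_cast hn0
  set A := sub n r false with hAdef
  set B := sub n r true with hBdef
  set m := 2 ^ (n - r) with hmdef
  have hm : 0 < m := by positivity
  have hA : A.card = m := card_sub hnr false
  have hB : B.card = m := card_sub hnr true
  have hAB : ∀ a ∈ A, ∀ b ∈ B, r ≤ hammingDist b a := fun a ha b hb => dist_sub hnr a ha b hb
  have hdisj : ∀ x ∈ A, x ∉ B := by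
    intro x hx hxB
    have := hAB x hx x hxB
    rw [hammingDist_self] at this
    omega
  set V : ℝ := (n + 1 : ℝ) ^ (r - 1) with hV
  have hV1 : 1 ≤ V := one_le_pow₀ (by linarith)
  have hr1' : (1 : ℝ) ≤ r := by exact_mod_cast hr1
  set e : ℝ := 1 / (2 * r * V) with he
  have he0 : 0 < e := by positivity
  have herV : e * r * V = 1 / 2 := by rw [he]; field_simp
  have he1 : e ≤ 1 / 2 := by
    rw [he]
    apply one_div_le_one_div_of_le (by norm_num)
    nlinarith
  have hfar := far_mix hn0 hr1 A B hm hA hB hAB e he0 he1 herV.le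
  refine ⟨smallSupport n m, mix A B m e, e * r / n, smallSupport_closed n m,
    isDist_mix A B m e hm hA hB he0.le (by linarith), by positivity, ?_, hfar, ?_⟩
  · have h1 : e * r / n = 1 / (2 * n * V) := by rw [he]; field_simp
    rw [h1]
    apply one_div_le_one_div_of_le (by positivity)
    have h2 : V ≤ (2 * n : ℝ) ^ (r - 1) := by
      apply pow_le_pow_left₀ (by positivity)
      linarith
    have h3 : (2 : ℝ) ^ r ≤ n := by exact_mod_cast hn2
    calc 2 * (n : ℝ) * V ≤ 2 * n * (2 * n : ℝ) ^ (r - 1) := by gcongr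
      _ = (2 * n : ℝ) ^ r := by
        rw [← pow_succ']
        congr 1
        omega
      _ = 2 ^ r * (n : ℝ) ^ r := by rw [mul_pow]
      _ ≤ n * (n : ℝ) ^ r := by gcongr
      _ = (n : ℝ) ^ (r + 1) := by ring
  · have hm' : (0 : ℝ) < m := by exact_mod_cast hm
    have himp : ∀ π : Equiv.Perm (Cube n),
        Far (smallSupport n m) (c * (e * r / n)) (push π (mix A B m e)) →
        (m : ℝ) / n < (bad A π).card := by
      intro π hπ
      by_contra hcon
      push Not at hcon
      obtain ⟨Y, hY, hemd⟩ := emd_mix_le hn0 A B hm hA hB hdisj e he0 he1 π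
      have h1 := hπ Y hY
      have h2 : e / m * ((bad A π).card : ℝ) ≤ e / m * (m / n) :=
        mul_le_mul_of_nonneg_left hcon (by positivity)
      have h3 : e / m * ((m : ℝ) / n) = e / n := by field_simp
      have h4 : c * (e * r / n) ≤ 2 * (e / n) := by linarith
      have h5 : c * (e * r / n) = (c * r) * (e / n) := by ring
      rw [h5] at h4
      have h6 : 2 < c * r := by
        rw [div_lt_iff₀ hc] at hr
        linarith
      have h7 : 0 < e / n := by positivity
      nlinarith
    have hle : prob (fun π : Equiv.Perm (Cube n) =>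
        Far (smallSupport n m) (c * (e * r / n)) (push π (mix A B m e))) ≤
        prob (fun π : Equiv.Perm (Cube n) => (m : ℝ) / n < (bad A π).card) := by
      unfold prob
      gcongr
      exact Nat.card_mono (Set.toFinite _) himp
    refine hle.trans ((prob_bad_le hn0 A hm hA).trans ?_)
    have h2n : (2 : ℝ) ^ n = m * 2 ^ r := by
      rw [hmdef]
      push_cast
      rw [← pow_add]
      congr 1
      omega
    have e1 : (2 : ℝ) ^ n * n / m * (1 - (m : ℝ) / 2 ^ n) ^ n =
        (2 : ℝ) ^ r * (n * (1 - (1 : ℝ) / 2 ^ r) ^ n) := by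
      have h8 : (m : ℝ) / 2 ^ n = 1 / 2 ^ r := by
        rw [h2n]; field_simp
      rw [h8, h2n]
      field_simp
    rw [e1]
    exact hN₁ n hnN₁

end Pool.Agent.Results.MP_3e89d2_lc.NoUniformConstant
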